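import Pool.Agent.H144.TS.Stm

/-!
# The frame of a group for its good primes
-/

set_option autoImplicit false

namespace Pool.Agent.H155.TS144

open Finset Pool.Agent.H144.TS

section basic

variable {G : Type} [Group G] {p : ℕ} {z : G}

theorem zp_congr (hz : orderOf z = p) {m n : ℕ} (h : (m : ZMod p) = n) : z ^ m = z ^ n := by
  rw [pow_eq_pow_iff_modEq, hz]
  exact (ZMod.natCast_eq_natCast_iff _ _ _).1 h

theorem zp_add [NeZero p] (hz : orderOf z = p) (b c : ZMod p) :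
    z ^ (b + c).val = z ^ b.val * z ^ c.val := by
  rw [← pow_add]
  apply zp_congr hz
  rw [Nat.cast_add, ZMod.natCast_zmod_val, ZMod.natCast_zmod_val, ZMod.natCast_zmod_val]

/-- an element of order dividing `p` lies in the normal subgroup of order `p` -/
theorem mem_of_pow [Finite G] (hp : p.Prime) (hn : ¬ p ^ 2 ∣ Nat.card G) {A : Subgroup G}
    (hA : A.Normal) (hc : Nat.card A = p) {y : G} (hy : y ^ p = 1) : y ∈ A := by
  have h1 : Nat.card A * A.index = Nat.card G := A.card_mul_index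
  have h2 : ¬ p ∣ A.index := by
    rintro ⟨k, hk⟩
    apply hn
    rw [← h1, hc, hk]
    exact ⟨k, by ring⟩
  have h3 : ((y : G ⧸ A)) ^ A.index = 1 := by
    rw [Subgroup.index_eq_card]
    exact pow_card_eq_one'
  have h4 : ((y : G ⧸ A)) ^ p = 1 := by
    rw [← QuotientGroup.mk_pow, hy, QuotientGroup.mk_one]
  have h5 : orderOf (y : G ⧸ A) ∣ Nat.gcd p A.index :=
    Nat.dvd_gcd (orderOf_dvd_of_pow_eq_one h4) (orderOf_dvd_of_pow_eq_one h3)
  rw [Nat.Coprime.gcd_eq_one ((Nat.Prime.coprime_iff_not_dvd hp).2 h2), Nat.dvd_one,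
    orderOf_eq_one_iff, QuotientGroup.eq_one_iff] at h5
  exact h5

end basic

/-- the data for one prime -/
structure PD (G : Type) [Group G] (q p : ℕ) (z : G) (a : G → ZMod p) (H : Subgroup G) : Prop where
  ord : orderOf z = p
  nrm : (Subgroup.zpowers z).Normal
  dec : ∀ x : G, ∃ h ∈ H, x = z ^ (a x).val * h
  uni : ∀ (b : ZMod p), ∀ h ∈ H, a (z ^ b.val * h) = b
  card : p * Nat.card H = Nat.card G
  mu : ∃ μ : G ≃* G, (∀ x, μ x = z ^ ((((q ^ 2 : ℕ) : ZMod p) - 1) * a x).val * x) ∧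
    ∀ g : G, ∃ s t : ℕ, IsConj (g ^ (q ^ s)) (μ g ^ (q ^ t))

theorem exists_PD (h1 : S_GRP) (h2 : S_EXPO) (h3 : S_AUT) (q : ℕ) (G : Type) [Group G]
    [Fintype G] (p : ℕ) (hq : 2 ≤ q) (hg : GoodN (Fintype.card G) p) (hqp : q + 1 < p) :
    ∃ (z : G) (a : G → ZMod p) (H : Subgroup G), PD G q p z a H := by
  classical
  have hp : p.Prime := hg.1.1
  haveI : NeZero p := ⟨hp.ne_zero⟩
  obtain ⟨A, H, hA, hcA, hAH, hconj⟩ := h1 G p hg
  obtain ⟨s, t, hst⟩ := h2 q (Fintype.card G) p hq hqp Fintype.card_pos hg.1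
  have hpq : ¬ p ∣ q := fun hd => by
    have := Nat.le_of_dvd (by omega) hd
    omega
  obtain ⟨μ, hμ1, hμ2⟩ := h3 G q p hp (by omega) hpq ⟨s, t, hst⟩ A H hA hcA hAH hconj
  -- a generator
  haveI : Fact p.Prime := ⟨hp⟩
  obtain ⟨z0, hz0⟩ := exists_prime_orderOf_dvd_card' (G := A) p (by rw [hcA])
  have hz : orderOf (z0 : G) = p := by
    rw [Subgroup.orderOf_coe, hz0]
  have hzA : Subgroup.zpowers (z0 : G) = A := by
    apply Subgroup.eq_of_le_of_card_ge
    · rw [Subgroup.zpowers_le]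
      exact z0.2
    · rw [Nat.card_zpowers, hz, hcA]
  have hdec : ∀ x : G, ∃ b : ZMod p, ∃ h ∈ H, x = (z0 : G) ^ b.val * h := by
    intro x
    obtain ⟨⟨⟨u, hu⟩, ⟨v, hv⟩⟩, huv⟩ := hAH.2 x
    simp only at huv
    have hu' : u ∈ A := hu
    have hu2 : u ∈ Subgroup.zpowers (z0 : G) := by rw [hzA]; exact hu'
    rw [← mem_powers_iff_mem_zpowers] at hu2
    obtain ⟨k, hk⟩ := hu2
    refine ⟨(k : ZMod p), v, hv, ?_⟩
    rw [← huv, ← hk]
    congr 1
    exact zp_congr hz (by rw [ZMod.natCast_zmod_val])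
  choose a v hv hav using hdec
  have hpowA : ∀ k : ℕ, (z0 : G) ^ k ∈ A := fun k => A.pow_mem z0.2 k
  have huni : ∀ (b : ZMod p), ∀ h ∈ H, a ((z0 : G) ^ b.val * h) = b := by
    intro b h hh
    have e1 := hav ((z0 : G) ^ b.val * h)
    have e3 : (z0 : G) ^ b.val = (z0 : G) ^ (a ((z0 : G) ^ b.val * h)).val := by
      have e2 := @hAH.1 ⟨⟨(z0 : G) ^ b.val, hpowA _⟩, ⟨h, hh⟩⟩
        ⟨⟨(z0 : G) ^ (a ((z0 : G) ^ b.val * h)).val, hpowA _⟩,
          ⟨v ((z0 : G) ^ b.val * h), hv _⟩⟩ e1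
      exact congrArg (fun w => (w.1 : G)) e2
    rw [pow_eq_pow_iff_modEq, hz, ← ZMod.natCast_eq_natCast_iff, ZMod.natCast_zmod_val,
      ZMod.natCast_zmod_val] at e3
    exact e3.symm
  refine ⟨z0, a, H, hz, by rw [hzA]; exact hA, fun x => ⟨v x, hv x, hav x⟩, huni, ?_, μ, ?_, hμ2⟩
  · rw [← hcA]
    exact hAH.card_mul
  · intro x
    have e1 : μ x = ((z0 : G) ^ (a x).val) ^ (q ^ 2) * v x := by
      conv_lhs => rw [hav x]
      exact hμ1 _ (hpowA _) _ (hv x)
    rw [e1]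
    conv_rhs => rw [hav x]
    rw [← mul_assoc, ← pow_add, ← pow_mul, ← hav x]
    congr 1
    apply zp_congr hz
    rw [Nat.cast_mul, Nat.cast_add, ZMod.natCast_zmod_val, ZMod.natCast_zmod_val]
    ring

theorem PD.comm {G : Type} [Group G] [Finite G] {q p p' : ℕ} {z z' : G} {a : G → ZMod p}
    {a' : G → ZMod p'} {H H' : Subgroup G} (D : PD G q p z a H) (D' : PD G q p' z' a' H')
    (hp : p.Prime) (hp' : p'.Prime) (hne : p ≠ p') : Commute z z' := by
  have h1 : Disjoint (Subgroup.zpowers z) (Subgroup.zpowers z') := by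
    rw [disjoint_iff]
    apply Subgroup.inf_eq_bot_of_coprime
    rw [Nat.card_zpowers, Nat.card_zpowers, D.ord, D'.ord]
    exact (Nat.coprime_primes hp hp').2 hne
  exact Subgroup.commute_of_normal_of_disjoint _ _ D.nrm D'.nrm h1 z z'
    (Subgroup.mem_zpowers z) (Subgroup.mem_zpowers z')

theorem PD.mem {G : Type} [Group G] [Finite G] {q p p' : ℕ} {z z' : G} {a : G → ZMod p}
    {a' : G → ZMod p'} {H H' : Subgroup G} (D : PD G q p z a H) (D' : PD G q p' z' a' H')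
    (hp : p.Prime) (hp' : p'.Prime) (hne : p ≠ p') (hn : ¬ p ^ 2 ∣ Nat.card G) : z ∈ H' := by
  haveI : Fact p.Prime := ⟨hp⟩
  have h1 : p ∣ Nat.card H' := by
    have h2 : p ∣ p' * Nat.card H' := by
      rw [D'.card, ← D.card]
      exact dvd_mul_right _ _
    exact (Nat.Coprime.dvd_mul_left ((Nat.coprime_primes hp hp').2 hne)).1 h2
  obtain ⟨y, hy⟩ := exists_prime_orderOf_dvd_card' (G := H') p h1
  have hyo : orderOf (y : G) = p := by rw [Subgroup.orderOf_coe, hy]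
  have hyz : (y : G) ∈ Subgroup.zpowers z := by
    refine mem_of_pow hp hn D.nrm ?_ ?_
    · rw [Nat.card_zpowers, D.ord]
    · rw [← hyo]
      exact pow_orderOf_eq_one _
  have h2 : Subgroup.zpowers (y : G) = Subgroup.zpowers z := by
    apply Subgroup.eq_of_le_of_card_ge
    · rw [Subgroup.zpowers_le]
      exact hyz
    · rw [Nat.card_zpowers, Nat.card_zpowers, hyo, D.ord]
  have h3 : z ∈ Subgroup.zpowers (y : G) := by
    rw [h2]
    exact Subgroup.mem_zpowers z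
  exact (Subgroup.zpowers_le.2 y.2) h3

theorem t_frm (h1 : S_GRP) (h2 : S_EXPO) (h3 : S_AUT) : S_FRM := by
  classical
  intro q G _ _ S hq hS
  have key : ∀ p : ℕ, ∃ (z : G) (a : G → ZMod p) (H : Subgroup G), p ∈ S → PD G q p z a H := by
    intro p
    by_cases hp : p ∈ S
    · obtain ⟨z, a, H, h⟩ := exists_PD h1 h2 h3 q G p hq (hS p hp).1 (hS p hp).2
      exact ⟨z, a, H, fun _ => h⟩
    · exact ⟨1, fun _ => 0, ⊤, fun h => absurd h hp⟩
  choose z a H hPD using key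
  have hprime : ∀ p ∈ S, p.Prime := fun p hp => (hS p hp).1.1.1
  have hsq : ∀ p ∈ S, ¬ p ^ 2 ∣ Nat.card G := fun p hp => by
    rw [Nat.card_eq_fintype_card]
    exact (hS p hp).1.1.2.2.1
  refine ⟨z, a, ⟨?_, ?_, ?_, ?_, ?_⟩, fun p hp => ⟨(hPD p hp).ord, (hPD p hp).nrm⟩,
    fun p hp => (hPD p hp).mu⟩
  · intro p hp x
    show z p ^ (0 : ZMod p).val * x = x
    rw [ZMod.val_zero, pow_zero, one_mul]
  · intro p hp b c x
    haveI : NeZero p := ⟨(hprime p hp).ne_zero⟩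
    show z p ^ (b + c).val * x = z p ^ b.val * (z p ^ c.val * x)
    rw [zp_add (hPD p hp).ord, mul_assoc]
  · intro p hp b x
    haveI : NeZero p := ⟨(hprime p hp).ne_zero⟩
    show a p (z p ^ b.val * x) = b + a p x
    obtain ⟨h, hh, hx⟩ := (hPD p hp).dec x
    have e : z p ^ b.val * x = z p ^ (b + a p x).val * h := by
      conv_lhs => rw [hx]
      rw [zp_add (hPD p hp).ord, mul_assoc]
    rw [e]
    exact (hPD p hp).uni _ h hh
  · intro p hp p' hp' hne b x
    show a p' (z p ^ b.val * x) = a p' x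
    obtain ⟨h, hh, hx⟩ := (hPD p' hp').dec x
    have hc := (hPD p hp).comm (hPD p' hp') (hprime p hp) (hprime p' hp') hne
    have hm := (hPD p hp).mem (hPD p' hp') (hprime p hp) (hprime p' hp') hne (hsq p hp)
    have e : z p ^ b.val * x = z p' ^ (a p' x).val * (z p ^ b.val * h) := by
      conv_lhs => rw [hx]
      rw [← mul_assoc, ← mul_assoc, (hc.pow_pow b.val (a p' x).val).eq]
    rw [e]
    exact (hPD p' hp').uni _ _ (mul_mem (pow_mem hm _) hh)
  · intro p hp p' hp' hne b b' x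
    show z p ^ b.val * (z p' ^ b'.val * x) = z p' ^ b'.val * (z p ^ b.val * x)
    have hc := (hPD p hp).comm (hPD p' hp') (hprime p hp) (hprime p' hp') hne
    rw [← mul_assoc, ← mul_assoc, (hc.pow_pow b.val b'.val).eq]

end Pool.Agent.H155.TS144
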